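import Pool.Agent.Lib.MP_5854e1_co.RotClass
import Pool.Agent.Lib.MP_5854e1_co.NoCover
import Pool.Agent.Lib.MP_5854e1_co.CertC3
import Pool.Agent.Lib.MP_5854e1_co.CertD2

/-!
# Rotations forced in every planar cover of `K_{1,2,2,2}`
-/

set_option autoImplicit false

open Pool.Agent.Lib.MP_5854e1_co

namespace Pool.Agent.Lib.MP_5854e1_co.Shelf.RotationClasses

/-- (1) In every rotation system of genus zero of a finite cover of `K_{1,2,2,2}` (apex `0`,
octahedron with opposite pairs `{1, 2}`, `{3, 4}`, `{5, 6}`) and for every triangle `r a b` of the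
octahedron there is a vertex over `r` at which the two neighbours following the neighbour over the
apex are over `a` and `b`, or over the vertices opposite to `a` and `b`.
(2) The graphs `C_3` and `D_2`, obtained from `K_{1,2,2,2}` by replacing two or three triangles of
the octahedron by stars, have no finite planar cover. -/
theorem result :
    (∀ {W : Type} [Finite W] [Nonempty W] (H : SimpleGraph W) (φ : W → Fin 7),
      IsCover H K1222 φ → ∀ rot : Equiv.Perm H.Dart, IsPlanarRotation H rot →
      ∀ r a b : Fin 7, r ≠ 0 → a ≠ 0 → b ≠ 0 →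
        K1222.Adj r a → K1222.Adj r b → K1222.Adj a b →
        ∃ d : H.Dart, φ d.fst = r ∧ φ d.snd = 0 ∧
          (s(φ (rot d).snd, φ (rot (rot d)).snd) = s(a, b) ∨
            s(φ (rot d).snd, φ (rot (rot d)).snd) = s(opp a, opp b))) ∧
    (∀ {W : Type} [Finite W] [Nonempty W] (H : SimpleGraph W) (φ : W → Fin 9),
      IsCover H C3 φ → ¬ ∃ rot : Equiv.Perm H.Dart, IsPlanarRotation H rot) ∧
    (∀ {W : Type} [Finite W] [Nonempty W] (H : SimpleGraph W) (φ : W → Fin 10),
      IsCover H D2 φ → ¬ ∃ rot : Equiv.Perm H.Dart, IsPlanarRotation H rot) :=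
  ⟨fun H φ hcov rot hrot r a b hr ha hb h1 h2 h3 =>
    rotation_class H φ hcov rot hrot r a b hr ha hb h1 h2 h3,
   fun H φ hcov => no_cover C3_cert C3 _ _ C3_ok (fun _ => rfl) (by decide) H φ hcov,
   fun H φ hcov => no_cover D2_cert D2 _ _ D2_ok (fun _ => rfl) (by decide) H φ hcov⟩

end Pool.Agent.Lib.MP_5854e1_co.Shelf.RotationClasses
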