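import Pool.Agent.Lib.MP_5854e1_co.Six

/-!
# Planar covers of `K_{1,2,2,2}` have a number of sheets divisible by six
-/

set_option autoImplicit false

open Pool.Agent.Lib.MP_5854e1_co

namespace Pool.Agent.Lib.MP_5854e1_co.Shelf.SixDividesSheets

/-- If a finite planar graph `H` covers `K_{1,2,2,2}`, then all vertices of `K_{1,2,2,2}` have the
same number `k` of vertices of `H` over them, and `k` is divisible by `6`. -/
theorem result {W : Type} [Finite W] (H : SimpleGraph W) (φ : W → Fin 7)
    (hcov : IsCover H K1222 φ) (hpl : IsPlanar H) :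
    ∃ k : ℕ, (∀ u, Nat.card {v // φ v = u} = k) ∧ 6 ∣ k := by
  refine ⟨fib φ 0, fun u => fib_eq_zero_fib hcov u, ?_⟩
  exact (Nat.Coprime.mul_dvd_of_dvd_of_dvd (by decide : Nat.Coprime 2 3)
    (two_dvd hcov hpl) (three_dvd hcov hpl))

end Pool.Agent.Lib.MP_5854e1_co.Shelf.SixDividesSheets
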